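import Pool.Agent.Results.MP_be00de_co.LogLogDoubling

set_option autoImplicit false

open Finset
open scoped Pointwise

namespace Pool.Agent.Y154.BE

open Pool.Agent.Results.MP_be00de_co.LogLogDoubling

variable {G : Type*} [AddCommGroup G] [DecidableEq G]

lemma N_concat (A : Finset G) (a b : ℕ) (x y : G) :
    N A (a + b + 1) x y = ∑ z ∈ A, N A a x z * N A b z y := by
  induction b generalizing y with
  | zero => rfl
  | succ b ih =>
    have e : a + (b + 1) + 1 = (a + b + 1) + 1 := by ring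
    rw [e]
    show ∑ w ∈ A, N A (a + b + 1) x w * rep A (w + y) =
      ∑ z ∈ A, N A a x z * ∑ w ∈ A, N A b z w * rep A (w + y)
    simp only [ih, Finset.sum_mul, Finset.mul_sum]
    rw [Finset.sum_comm]
    exact Finset.sum_congr rfl fun z _ => Finset.sum_congr rfl fun w _ => by ring

lemma N_symm (A : Finset G) (j : ℕ) (x y : G) : N A j x y = N A j y x := by
  induction j generalizing x y with
  | zero =>
    show rep A (x + y) = rep A (y + x)
    rw [add_comm]
  | succ j ih =>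
    have h := N_concat A 0 j y x
    rw [zero_add] at h
    rw [h]
    show ∑ z ∈ A, N A j x z * rep A (z + y) = ∑ z ∈ A, rep A (y + z) * N A j z x
    refine Finset.sum_congr rfl fun z _ => ?_
    rw [ih x z, add_comm z y, mul_comm]

lemma diff_count (A S : Finset G) (i : ℕ) (hi : Even (i + 1)) (M : ℝ)
    (h : ∀ y ∈ S, ∀ z ∈ S, M ≤ N A i y z) :
    ((S - S).card : ℝ) * M ≤ (A.card : ℝ) ^ (2 * (i + 1)) := by
  refine le_trans ?_ (F_sum A i (S - S))
  calc ((S - S).card : ℝ) * M = ∑ u ∈ S - S, M := by rw [Finset.sum_const, nsmul_eq_mul]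
    _ ≤ _ := by
      refine Finset.sum_le_sum fun u hu => ?_
      obtain ⟨y, hy, z, hz, rfl⟩ := Finset.mem_sub.1 hu
      have h1 := N_le_F A i y z
      rw [hi.neg_one_pow, one_smul] at h1
      exact (h y hy z hz).trans h1

/-- The Balog-Szemeredi-Gowers step. -/
lemma bsg (A : Finset G) (hA : A.Nonempty) (j : ℕ) (s t : ℝ) (hs : 0 < s) (ht : 0 < t)
    (Γ : G → Finset G) (hΓ : ∀ x ∈ A, Γ x ⊆ A) (hc : ∀ x ∈ A, s * A.card ≤ ((Γ x).card : ℝ))
    (hN : ∀ x ∈ A, ∀ y ∈ Γ x, t ≤ N A j x y) :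
    ∃ S ⊆ A, 3 / 4 * (s * A.card) ≤ (S.card : ℝ) ∧ ∀ y ∈ S, ∀ z ∈ S,
      s * A.card / 2 * (s ^ 2 / 16 * A.card * t ^ 2) ^ 2 ≤ N A (4 * j + 3) y z := by
  classical
  set n : ℝ := (A.card : ℝ) with hn
  have hn0 : 0 < n := by rw [hn]; exact_mod_cast Finset.card_pos.2 hA
  set D : ℝ := s ^ 2 / 16 * n * t ^ 2 with hD
  have hD0 : 0 < D := by positivity
  let bad : G → G → Prop := fun y z => N A (2 * j + 1) y z < D
  have hbad : ∀ y z, bad y z →
      ((A.filter fun x => y ∈ Γ x ∧ z ∈ Γ x).card : ℝ) ≤ s ^ 2 / 16 * n := by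
    intro y z hb
    have h1 : ((A.filter fun x => y ∈ Γ x ∧ z ∈ Γ x).card : ℝ) * (t * t) ≤
        N A (2 * j + 1) y z := by
      have e : 2 * j + 1 = j + j + 1 := by ring
      rw [e, N_concat]
      calc ((A.filter fun x => y ∈ Γ x ∧ z ∈ Γ x).card : ℝ) * (t * t)
          = ∑ x ∈ A.filter (fun x => y ∈ Γ x ∧ z ∈ Γ x), t * t := by
            rw [Finset.sum_const, nsmul_eq_mul]
        _ ≤ ∑ x ∈ A.filter (fun x => y ∈ Γ x ∧ z ∈ Γ x), N A j y x * N A j x z := by
            refine Finset.sum_le_sum fun x hx => ?_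
            rw [Finset.mem_filter] at hx
            have h1 := hN x hx.1 y hx.2.1
            have h2 := hN x hx.1 z hx.2.2
            rw [N_symm A j y x]
            exact mul_le_mul h1 h2 ht.le (ht.le.trans h1)
        _ ≤ _ := Finset.sum_le_sum_of_subset_of_nonneg (Finset.filter_subset _ _)
            fun x _ _ => mul_nonneg (N_nonneg A j _ _) (N_nonneg A j _ _)
    have h2 : N A (2 * j + 1) y z < D := hb
    have h3 : ((A.filter fun x => y ∈ Γ x ∧ z ∈ Γ x).card : ℝ) * (t * t) ≤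
        (s ^ 2 / 16 * n) * (t * t) := by
      have : D = (s ^ 2 / 16 * n) * (t * t) := by rw [hD]; ring
      linarith
    exact le_of_mul_le_mul_right h3 (by positivity)
  have hsum : ∑ x ∈ A, (((Γ x ×ˢ Γ x).filter fun p => bad p.1 p.2).card : ℝ) ≤
      n * (s * n) ^ 2 / 16 := by
    have e1 : ∀ x ∈ A, (((Γ x ×ˢ Γ x).filter fun p => bad p.1 p.2).card : ℝ) =
        ∑ p ∈ (A ×ˢ A).filter (fun p => bad p.1 p.2),
          if (p.1 ∈ Γ x ∧ p.2 ∈ Γ x) then (1 : ℝ) else 0 := by
      intro x hx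
      rw [← Finset.sum_filter, Finset.sum_const, nsmul_eq_mul, mul_one]
      congr 2
      ext p
      simp only [Finset.mem_filter, Finset.mem_product]
      constructor
      · rintro ⟨⟨h1, h2⟩, h3⟩
        exact ⟨⟨⟨hΓ x hx h1, hΓ x hx h2⟩, h3⟩, h1, h2⟩
      · rintro ⟨⟨_, h3⟩, h1, h2⟩
        exact ⟨⟨h1, h2⟩, h3⟩
    rw [Finset.sum_congr rfl e1, Finset.sum_comm]
    calc ∑ p ∈ (A ×ˢ A).filter (fun p => bad p.1 p.2),
          ∑ x ∈ A, (if (p.1 ∈ Γ x ∧ p.2 ∈ Γ x) then (1 : ℝ) else 0)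
        ≤ ∑ p ∈ (A ×ˢ A).filter (fun p => bad p.1 p.2), s ^ 2 / 16 * n := by
          refine Finset.sum_le_sum fun p hp => ?_
          rw [Finset.mem_filter, Finset.mem_product] at hp
          rw [← Finset.sum_filter, Finset.sum_const, nsmul_eq_mul, mul_one]
          exact hbad p.1 p.2 hp.2
      _ ≤ ∑ p ∈ A ×ˢ A, s ^ 2 / 16 * n :=
          Finset.sum_le_sum_of_subset_of_nonneg (Finset.filter_subset _ _)
            fun _ _ _ => by positivity
      _ = n * (s * n) ^ 2 / 16 := by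
          rw [Finset.sum_const, Finset.card_product, nsmul_eq_mul]
          push_cast
          rw [← hn]
          ring
  have hex : ∃ x ∈ A, 16 * (((Γ x ×ˢ Γ x).filter fun p => bad p.1 p.2).card : ℝ) ≤
      ((Γ x).card : ℝ) ^ 2 := by
    by_contra hcon
    push Not at hcon
    have h1 : ∑ x ∈ A, ((Γ x).card : ℝ) ^ 2 <
        ∑ x ∈ A, 16 * (((Γ x ×ˢ Γ x).filter fun p => bad p.1 p.2).card : ℝ) :=
      Finset.sum_lt_sum_of_nonempty hA hcon
    have h2 : n * (s * n) ^ 2 ≤ ∑ x ∈ A, ((Γ x).card : ℝ) ^ 2 := by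
      calc n * (s * n) ^ 2 = ∑ x ∈ A, (s * n) ^ 2 := by
            rw [Finset.sum_const, nsmul_eq_mul]
        _ ≤ _ := Finset.sum_le_sum fun x hx => pow_le_pow_left₀ (by positivity) (hc x hx) 2
    rw [← Finset.mul_sum] at h1
    linarith
  obtain ⟨x, hx, hB⟩ := hex
  set g : ℝ := ((Γ x).card : ℝ) with hg
  have hgs : s * n ≤ g := hc x hx
  have hsn : 0 < s * n := by positivity
  have hg0 : 0 < g := lt_of_lt_of_le hsn hgs
  let b : G → ℝ := fun y => (((Γ x).filter fun z => bad y z).card : ℝ)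
  have hbs : ∑ y ∈ Γ x, b y = (((Γ x ×ˢ Γ x).filter fun p => bad p.1 p.2).card : ℝ) := by
    rw [Finset.card_filter, Finset.sum_product]
    push_cast
    refine Finset.sum_congr rfl fun y _ => ?_
    show (((Γ x).filter fun z => bad y z).card : ℝ) = _
    rw [Finset.card_filter]
    push_cast
    rfl
  have hcompl : (((Γ x).filter (fun y => ¬ 4 * b y ≤ g)).card : ℝ) ≤ g / 4 := by
    have h1 : (((Γ x).filter (fun y => ¬ 4 * b y ≤ g)).card : ℝ) * (g / 4) ≤
        ∑ y ∈ Γ x, b y := by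
      calc (((Γ x).filter (fun y => ¬ 4 * b y ≤ g)).card : ℝ) * (g / 4)
          = ∑ y ∈ (Γ x).filter (fun y => ¬ 4 * b y ≤ g), g / 4 := by
            rw [Finset.sum_const, nsmul_eq_mul]
        _ ≤ ∑ y ∈ (Γ x).filter (fun y => ¬ 4 * b y ≤ g), b y :=
            Finset.sum_le_sum fun y hy => by
              rw [Finset.mem_filter, not_le] at hy
              linarith [hy.2]
        _ ≤ _ := Finset.sum_le_sum_of_subset_of_nonneg (Finset.filter_subset _ _)
            fun y _ _ => Nat.cast_nonneg _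
    rw [hbs] at h1
    have h2 : (((Γ x).filter (fun y => ¬ 4 * b y ≤ g)).card : ℝ) * (g / 4) ≤
        (g / 4) * (g / 4) := by nlinarith
    exact le_of_mul_le_mul_right h2 (by positivity)
  have hScard : 3 / 4 * g ≤ (((Γ x).filter (fun y => 4 * b y ≤ g)).card : ℝ) := by
    have h1 : (((Γ x).filter (fun y => 4 * b y ≤ g)).card : ℝ) +
        (((Γ x).filter (fun y => ¬ 4 * b y ≤ g)).card : ℝ) = g := by
      rw [hg]
      exact_mod_cast Finset.card_filter_add_card_filter_not (s := Γ x) (fun y => 4 * b y ≤ g)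
    linarith
  refine ⟨(Γ x).filter (fun y => 4 * b y ≤ g), (Finset.filter_subset _ _).trans (hΓ x hx),
    by linarith, ?_⟩
  intro y hy z hz
  have hyb : 4 * b y ≤ g := (Finset.mem_filter.1 hy).2
  have hzb : 4 * b z ≤ g := (Finset.mem_filter.1 hz).2
  have hWc : g / 2 ≤ (((Γ x).filter (fun w => ¬ bad y w ∧ ¬ bad z w)).card : ℝ) := by
    have h1 : (Γ x) ⊆ (Γ x).filter (fun w => ¬ bad y w ∧ ¬ bad z w) ∪
        ((Γ x).filter (fun w => bad y w) ∪ (Γ x).filter (fun w => bad z w)) := by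
      intro w hw
      simp only [Finset.mem_union, Finset.mem_filter]
      by_cases h1 : bad y w
      · exact Or.inr (Or.inl ⟨hw, h1⟩)
      · by_cases h2 : bad z w
        · exact Or.inr (Or.inr ⟨hw, h2⟩)
        · exact Or.inl ⟨hw, h1, h2⟩
    have h2 := (Finset.card_le_card h1).trans ((Finset.card_union_le _ _).trans
      (Nat.add_le_add_left (Finset.card_union_le _ _) _))
    have h3 : g ≤ (((Γ x).filter (fun w => ¬ bad y w ∧ ¬ bad z w)).card : ℝ) + (b y + b z) := by
      show ((Γ x).card : ℝ) ≤ (((Γ x).filter (fun w => ¬ bad y w ∧ ¬ bad z w)).card : ℝ) +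
        ((((Γ x).filter (fun w => bad y w)).card : ℝ) +
          (((Γ x).filter (fun w => bad z w)).card : ℝ))
      exact_mod_cast h2
    linarith
  have e : 4 * j + 3 = (2 * j + 1) + (2 * j + 1) + 1 := by ring
  rw [e, N_concat]
  calc s * n / 2 * D ^ 2
      ≤ (((Γ x).filter (fun w => ¬ bad y w ∧ ¬ bad z w)).card : ℝ) * D ^ 2 :=
        mul_le_mul_of_nonneg_right (by linarith) (by positivity)
    _ = ∑ w ∈ (Γ x).filter (fun w => ¬ bad y w ∧ ¬ bad z w), D * D := by
        rw [Finset.sum_const, nsmul_eq_mul]; ring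
    _ ≤ ∑ w ∈ (Γ x).filter (fun w => ¬ bad y w ∧ ¬ bad z w),
          N A (2 * j + 1) y w * N A (2 * j + 1) w z := by
        refine Finset.sum_le_sum fun w hw => ?_
        have h := (Finset.mem_filter.1 hw).2
        have h1 : D ≤ N A (2 * j + 1) y w := not_lt.1 h.1
        have h2 : D ≤ N A (2 * j + 1) w z := by rw [N_symm]; exact not_lt.1 h.2
        exact mul_le_mul h1 h2 hD0.le (hD0.le.trans h1)
    _ ≤ _ := Finset.sum_le_sum_of_subset_of_nonneg
        ((Finset.filter_subset _ _).trans (hΓ x hx))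
        fun w _ _ => mul_nonneg (N_nonneg A _ _ _) (N_nonneg A _ _ _)

lemma u_le {L : ℝ} (hL : 0 ≤ L) (k : ℕ) : u L k ≤ 63 / 100 + (101 / 299) ^ k * L := by
  unfold u
  have h : (0 : ℝ) ≤ (101 / 299) ^ k := by positivity
  nlinarith

lemma u_le' {L : ℝ} (hL : 0 ≤ L) (k : ℕ) : u L k ≤ 63 / 100 + L := by
  have h := u_le hL k
  have h2 : (101 / 299 : ℝ) ^ k ≤ 1 := pow_le_one₀ (by norm_num) (by norm_num)
  have h3 : (101 / 299 : ℝ) ^ k * L ≤ 1 * L := mul_le_mul_of_nonneg_right h2 hL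
  linarith

lemma exp_512 : (512 : ℝ) ≤ Real.exp 7 := by
  have h1 : (2.7182818283 : ℝ) < Real.exp 1 := Real.exp_one_gt_d9
  have h2 : Real.exp 7 = Real.exp 1 ^ 7 := by rw [← Real.exp_nat_mul]; norm_num
  rw [h2]
  calc (512 : ℝ) ≤ 2.7 ^ 7 := by norm_num
    _ ≤ Real.exp 1 ^ 7 := pow_le_pow_left₀ (by norm_num) (by linarith) 7

lemma ext_diff {A : Finset G} (hA : Ext A) {L : ℝ} (hL : 0 ≤ L)
    (he : T A A A A = (A.card : ℝ) ^ 3 * Real.exp (-L)) (j : ℕ) :
    ∃ S ⊆ A, 3 / 4 * (Real.exp (-u L j) * A.card) ≤ (S.card : ℝ) ∧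
      ((S - S).card : ℝ) ≤ Real.exp ((8 * j + 9) * L + (20 * j + 27)) * A.card := by
  have hn0 := hA.card_pos
  obtain ⟨S, hSA, hS, hN⟩ := bsg A hA.1 j (Real.exp (-u L j)) (Tl A.card L j) (Real.exp_pos _)
    (Tl_pos hn0 L j) (fun x => X A x j) (fun x _ => X_sub A x j)
    (fun x hx => by
      have h := X_card_lower hA he hx j
      rwa [le_div_iff₀ hn0] at h)
    (fun x hx y hy => N_lower hA he hx j hy)
  refine ⟨S, hSA, hS, ?_⟩
  have hp := diff_count A S (4 * j + 3) ⟨2 * j + 2, by ring⟩ _ hN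
  have hu := u_le' hL j
  have hsum : ∑ k ∈ Finset.range j, u L k ≤ j * (63 / 100 + L) := by
    calc ∑ k ∈ Finset.range j, u L k ≤ ∑ k ∈ Finset.range j, (63 / 100 + L) :=
          Finset.sum_le_sum fun k _ => u_le' hL k
      _ = _ := by rw [Finset.sum_const, Finset.card_range, nsmul_eq_mul]
  set n : ℝ := (A.card : ℝ) with hnd
  set m : ℝ := ((S - S).card : ℝ) with hmd
  have hm0 : 0 ≤ m := by positivity
  set q : ℝ := ∑ k ∈ Finset.range j, u L k with hq
  set w : ℝ := u L j with hw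
  set Q : ℝ := ((j : ℝ) + 1) * (L + 421 / 100) + q with hQ
  have hT : Tl n L j = n ^ (2 * j + 1) * Real.exp (-Q) := rfl
  have e1 : Real.exp (-w) * n / 2 * (Real.exp (-w) ^ 2 / 16 * n * Tl n L j ^ 2) ^ 2 =
      n ^ (8 * j + 7) * Real.exp (-(5 * w + 4 * Q)) / 512 := by
    rw [hT]
    have e2 : Real.exp (-(5 * w + 4 * Q)) = Real.exp (-w) ^ 5 * Real.exp (-Q) ^ 4 := by
      rw [← Real.exp_nat_mul, ← Real.exp_nat_mul, ← Real.exp_add]
      congr 1
      push_cast
      ring
    rw [e2]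
    ring
  rw [e1] at hp
  have hpow : 0 < n ^ (8 * j + 7) := by positivity
  have e3 : n ^ (2 * (4 * j + 3 + 1)) = n ^ (8 * j + 7) * n := by
    rw [← pow_succ]
    congr 1
    ring
  rw [e3] at hp
  have h1 : m * Real.exp (-(5 * w + 4 * Q)) ≤ 512 * n := by
    have : n ^ (8 * j + 7) * (m * Real.exp (-(5 * w + 4 * Q))) ≤ n ^ (8 * j + 7) * (512 * n) := by
      nlinarith
    exact le_of_mul_le_mul_left this hpow
  have h2 : m ≤ 512 * n * Real.exp (5 * w + 4 * Q) := by
    have h3 := mul_le_mul_of_nonneg_right h1 (Real.exp_pos (5 * w + 4 * Q)).le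
    rwa [mul_assoc, ← Real.exp_add, neg_add_cancel, Real.exp_zero, mul_one] at h3
  have h4 : 512 * Real.exp (5 * w + 4 * Q) ≤ Real.exp ((8 * j + 9) * L + (20 * j + 27)) := by
    calc 512 * Real.exp (5 * w + 4 * Q) ≤ Real.exp 7 * Real.exp (5 * w + 4 * Q) :=
          mul_le_mul_of_nonneg_right exp_512 (Real.exp_pos _).le
      _ = Real.exp (7 + (5 * w + 4 * Q)) := (Real.exp_add _ _).symm
      _ ≤ _ := by
          refine Real.exp_le_exp.2 ?_
          rw [hQ]
          have hj : (0 : ℝ) ≤ j := Nat.cast_nonneg j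
          nlinarith
  calc m ≤ 512 * n * Real.exp (5 * w + 4 * Q) := h2
    _ = 512 * Real.exp (5 * w + 4 * Q) * n := by ring
    _ ≤ _ := mul_le_mul_of_nonneg_right h4 hn0.le

lemma ext_sum {A : Finset G} (hA : Ext A) {L : ℝ} (hL : 0 ≤ L)
    (he : T A A A A = (A.card : ℝ) ^ 3 * Real.exp (-L)) (j : ℕ) :
    ∃ S ⊆ A, S.Nonempty ∧ (A.card : ℝ) ≤ 3 * Real.exp ((101 / 299) ^ j * L) * (S.card : ℝ) ∧
      ((S + S).card : ℝ) ≤ Real.exp ((16 * j + 20) * L + (40 * j + 56)) * S.card := by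
  have hn0 := hA.card_pos
  obtain ⟨S, hSA, hS, hd⟩ := ext_diff hA hL he j
  set n : ℝ := (A.card : ℝ) with hnd
  have hS0 : (0 : ℝ) < S.card := lt_of_lt_of_le (by positivity) hS
  have hSne : S.Nonempty := Finset.card_pos.1 (by exact_mod_cast hS0)
  have hn1 : n ≤ 4 / 3 * Real.exp (u L j) * S.card := by
    have h := mul_le_mul_of_nonneg_left hS (by positivity : 0 ≤ 4 / 3 * Real.exp (u L j))
    have e : 4 / 3 * Real.exp (u L j) * (3 / 4 * (Real.exp (-u L j) * n)) =
        (Real.exp (u L j) * Real.exp (-u L j)) * n := by ring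
    rw [e, ← Real.exp_add, add_neg_cancel, Real.exp_zero, one_mul] at h
    exact h
  refine ⟨S, hSA, hSne, ?_, ?_⟩
  · refine hn1.trans (mul_le_mul_of_nonneg_right ?_ hS0.le)
    have h1 : Real.exp (63 / 100) ≤ 9 / 4 := by
      have h1 : Real.exp 1 < 2.7182818286 := Real.exp_one_lt_d9
      have h := Real.sum_le_exp_of_nonneg (x := 37 / 100) (by norm_num) 3
      simp only [Finset.sum_range_succ, Finset.sum_range_zero, Nat.factorial] at h
      norm_num at h
      have e : Real.exp (63 / 100) * Real.exp (37 / 100) = Real.exp 1 := by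
        rw [← Real.exp_add]; norm_num
      have h0 : 0 < Real.exp (63 / 100) := Real.exp_pos _
      by_contra hcon
      push Not at hcon
      nlinarith
    calc 4 / 3 * Real.exp (u L j) ≤ 4 / 3 * Real.exp (63 / 100 + (101 / 299) ^ j * L) :=
          mul_le_mul_of_nonneg_left (Real.exp_le_exp.2 (u_le hL j)) (by norm_num)
      _ = 4 / 3 * Real.exp (63 / 100) * Real.exp ((101 / 299) ^ j * L) := by
          rw [Real.exp_add]; ring
      _ ≤ 3 * Real.exp ((101 / 299) ^ j * L) :=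
          mul_le_mul_of_nonneg_right (by linarith) (Real.exp_pos _).le
  · have h1 : ((S - S).card : ℝ) ≤ Real.exp ((8 * j + 10) * L + (20 * j + 28)) * S.card := by
      refine hd.trans ?_
      refine (mul_le_mul_of_nonneg_left hn1 (Real.exp_pos _).le).trans ?_
      have h43 : (4 / 3 : ℝ) ≤ Real.exp (37 / 100) := by
        have := Real.add_one_le_exp (37 / 100 : ℝ)
        linarith
      calc Real.exp ((8 * j + 9) * L + (20 * j + 27)) * (4 / 3 * Real.exp (u L j) * S.card)
          ≤ Real.exp ((8 * j + 9) * L + (20 * j + 27)) *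
              (Real.exp (37 / 100) * Real.exp (63 / 100 + L) * S.card) := by
            refine mul_le_mul_of_nonneg_left (mul_le_mul_of_nonneg_right ?_ hS0.le)
              (Real.exp_pos _).le
            exact mul_le_mul h43 (Real.exp_le_exp.2 (u_le' hL j)) (Real.exp_pos _).le
              (Real.exp_pos _).le
        _ = (Real.exp ((8 * j + 9) * L + (20 * j + 27)) *
              (Real.exp (37 / 100) * Real.exp (63 / 100 + L))) * S.card := by ring
        _ = Real.exp ((8 * j + 10) * L + (20 * j + 28)) * S.card := by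
            rw [← Real.exp_add, ← Real.exp_add]
            congr 2
            ring
    have h2 := Finset.pluennecke_ruzsa_inequality_nsmul_sub hSne S 2
    rw [two_nsmul] at h2
    have h3 : ((S + S).card : ℝ) ≤ (((S - S).card : ℝ) / S.card) ^ 2 * S.card := by
      have h4 : (((S + S).card : ℚ≥0) : ℝ) ≤
          ((((S - S).card : ℚ≥0) / (S.card : ℚ≥0)) ^ 2 * (S.card : ℚ≥0) : ℚ≥0) := by
        exact_mod_cast h2
      push_cast at h4
      exact h4
    refine h3.trans ?_
    refine mul_le_mul_of_nonneg_right ?_ hS0.le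
    have h5 : ((S - S).card : ℝ) / S.card ≤ Real.exp ((8 * j + 10) * L + (20 * j + 28)) := by
      rw [div_le_iff₀ hS0]
      exact h1
    calc (((S - S).card : ℝ) / S.card) ^ 2
        ≤ Real.exp ((8 * j + 10) * L + (20 * j + 28)) ^ 2 :=
          pow_le_pow_left₀ (by positivity) h5 2
      _ = _ := by
          rw [← Real.exp_nat_mul]
          congr 1
          push_cast
          ring

/-- Every subset of an extremal set has large energy. -/
lemma ext_energy {A : Finset G} (hA : Ext A) {S : Finset G} (hS : S ⊆ A) :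
    3 / 10 * ((S.card : ℝ) / A.card) ^ 4 * T A A A A ≤ T S S S S := by
  have hn := hA.card_pos
  have he := T_pos hA.1
  have h1 := gcs S A A
  have h2 : 299 / 400 * ((S.card : ℝ) / A.card) * T A A A A ≤ T S A A A := by
    have h3 : T S A A A = ∑ x ∈ S, deg A x := rfl
    rw [h3]
    calc 299 / 400 * ((S.card : ℝ) / A.card) * T A A A A
        = ∑ x ∈ S, 299 / 400 * (T A A A A / A.card) := by
          rw [Finset.sum_const, nsmul_eq_mul]
          field_simp
      _ ≤ _ := Finset.sum_le_sum fun x hx => hA.deg_le (hS hx)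
  set e : ℝ := T A A A A with hed
  set σ : ℝ := (S.card : ℝ) / A.card with hσ
  have hσ0 : 0 ≤ σ := by rw [hσ]; positivity
  have h4 : (299 / 400 * σ * e) ^ 4 ≤ T S S S S * e ^ 3 := by
    calc (299 / 400 * σ * e) ^ 4 ≤ (T S A A A) ^ 4 := pow_le_pow_left₀ (by positivity) h2 4
      _ ≤ T S S S S * e * e ^ 2 := h1
      _ = _ := by ring
  have h5 : e ^ 3 * ((299 / 400) ^ 4 * σ ^ 4 * e) ≤ e ^ 3 * T S S S S := by
    calc e ^ 3 * ((299 / 400) ^ 4 * σ ^ 4 * e) = (299 / 400 * σ * e) ^ 4 := by ring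
      _ ≤ _ := h4
      _ = _ := by ring
  have h6 : (299 / 400) ^ 4 * σ ^ 4 * e ≤ T S S S S :=
    le_of_mul_le_mul_left h5 (by positivity)
  refine le_trans ?_ h6
  have h7 : (0 : ℝ) ≤ σ ^ 4 * e := by positivity
  nlinarith

end Pool.Agent.Y154.BE
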